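import Pool.Agent.W_MP_8b9c06_gt.Final

set_option autoImplicit false

namespace Pool.Agent.Results.MP_8b9c06_gt.CountablyManyCorners

open Pool.Agent.W_MP_8b9c06_gt

/-- There is a closed convex plane curve which is approximable by multifocal ellipses, and which is
even the level set of a weighted sum of distances to countably many points in a bounded set, but
which is not of generalized-ellipse form. (It has infinitely many corners, each at one of the
foci.) -/
theorem result : ∃ C : Set Plane, IsClosedConvexCurve C ∧ IsApproximable C ∧
    IsCountableFociEllipse C ∧ ¬ IsGeneralizedEllipse C :=
  corners_main

end Pool.Agent.Results.MP_8b9c06_gt.CountablyManyCorners
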