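import Pool.Agent.W_MP_8b9c06_gt.Final

set_option autoImplicit false

namespace Pool.Agent.Results.MP_8b9c06_gt.NoFiniteMeasure

open Pool.Agent.W_MP_8b9c06_gt MeasureTheory

/-- There is a closed convex plane curve which is approximable by multifocal ellipses, but which is
not of generalized-ellipse form, and which is more generally not the level set, above the minimum,
of the distance potential `x ↦ ∫ |x - y| dμ(y)` of any finite Borel measure `μ` on the plane with
finite first moment. -/
theorem result : ∃ C : Set Plane, IsClosedConvexCurve C ∧ IsApproximable C ∧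
    ¬ IsGeneralizedEllipse C ∧
    ∀ μ : Measure Plane, IsFiniteMeasure μ → Integrable (fun y : Plane => ‖y‖) μ → ∀ c : ℝ,
      (∃ z : Plane, ∫ y, dist z y ∂μ < c) → C ≠ {x : Plane | ∫ y, dist x y ∂μ = c} :=
  segment_main

end Pool.Agent.Results.MP_8b9c06_gt.NoFiniteMeasure
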